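import Pool.Agent.N469.HB.Pre

set_option autoImplicit false

namespace Pool.Agent.N469.HB

open Finset

variable {n m : ℕ}

theorem edge (δ : Tab n m) (hk1 : 1 ≤ haltCount δ) (t0 : ℕ)
    (hT : HaltsAt δ (t0 + 1)) (dir : Bool) (ε : ℤ) (hε : ε = if dir then 1 else -1)
    (hnb : (run δ t0).2.1 ((run δ t0).2.2 + ε) = 0) (s s' : Fin (n + 2)) (w : Fin (m + 1))
    (hs : δ s 0 = (w, !dir, some s')) (hw : w ≠ 0) :
    ∃ δ' : Tab n (m + 1), haltCount δ' = haltCount δ ∧
      ∃ t', t0 + 1 < t' ∧ HaltsAt δ' t' ∧ nonblank δ (t0 + 1) < nonblank δ' t' := by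
  classical
  obtain ⟨q, hq⟩ := Option.ne_none_iff_exists'.1 (hT.2 t0 (by omega))
  have hqa : (δ q (scan δ t0)).2.2 = none := by
    rw [← next_state δ hq]
    exact hT.1
  let g : Fin (n + 2) → Fin (m + 2) → Fin (m + 2) × Bool × Fin (n + 2) := fun x c =>
    if x = q ∧ dec c = scan δ t0 then (Fin.last (m + 1), dir, s)
    else ((δ x (dec c)).1.castSucc, (δ x (dec c)).2.1, (δ x (dec c)).2.2.getD 0)
  let F : Finset (Fin (n + 2) × Fin (m + 2)) :=
    (used δ t0).image (fun p => (p.1, p.2.castSucc)) ∪
      ({(q, (scan δ t0).castSucc)} ∪ {(s, 0)})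
  have hne : ∀ c : Fin (m + 1), c.castSucc ≠ Fin.last (m + 1) := fun c => (Fin.castSucc_lt_last c).ne
  have he0 : ((s', Fin.last (m + 1)) : Fin (n + 2) × Fin (m + 2)) ∉ F := by
    intro h
    simp only [F, mem_union, mem_image, mem_singleton, Prod.mk.injEq] at h
    rcases h with ⟨p, hp, h1, h2⟩ | ⟨h1, h2⟩ | ⟨h1, h2⟩
    · exact hne _ h2
    · exact hne _ h2.symm
    · exact last_ne h2
  have hFc : F.card ≤ (used δ t0).card + (1 + 1) := by
    refine (card_union_le _ _).trans (add_le_add card_image_le ?_)
    refine (card_union_le _ _).trans (add_le_add (by simp) (by simp))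
  have hU := used_card δ t0 hT
  obtain ⟨δ', h1, h2, h3, h4⟩ := build n (m + 1) (haltCount δ) F
    (s', Fin.last (m + 1)) he0 hk1
    (by
      have : (n + 2) * (m + 1 + 1) = (n + 2) * (m + 1) + (n + 2) := by ring
      rw [this]
      omega) g
  simp only at h3 h4
  have P2 : δ' q (scan δ t0).castSucc = (Fin.last (m + 1), dir, some s) := by
    have := h2 q (scan δ t0).castSucc (by
      apply mem_union_right
      apply mem_union_left
      exact mem_singleton_self _)
    simp only [g, dec_castSucc, and_self, if_true] at this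
    exact this
  have P3 : δ' s 0 = (w.castSucc, !dir, some s') := by
    have h5 := h2 s 0 (by
      apply mem_union_right
      apply mem_union_right
      exact mem_singleton_self _)
    have hn : ¬ (s = q ∧ dec (0 : Fin (m + 2)) = scan δ t0) := by
      rintro ⟨h6, h7⟩
      rw [dec_zero] at h7
      rw [← h6, ← h7, hs] at hqa
      simp at hqa
    have h6 : g s 0 = (w.castSucc, !dir, s') := by
      simp only [g]
      rw [if_neg hn, dec_zero, hs]
      rfl
    rw [h6] at h5
    exact h5
  have A : ∀ r ≤ t0, run δ' r = ((run δ r).1, up (run δ r).2.1, (run δ r).2.2) := by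
    intro r
    induction r with
    | zero =>
      intro _
      rw [run_zero, run_zero]
      rfl
    | succ r ih =>
      intro hr
      have ih' := ih (by omega)
      obtain ⟨x, hx⟩ := Option.ne_none_iff_exists'.1 (hT.2 r (by omega))
      have hx' : (run δ' r).1 = some x := by rw [ih', hx]
      have hnh : (δ x (scan δ r)).2.2 ≠ none := by
        rw [← next_state δ hx]
        exact hT.2 (r + 1) (by omega)
      have h5 := h2 x (scan δ r).castSucc (by
        apply mem_union_left
        rw [mem_image]
        exact ⟨_, mem_used δ (show r < t0 by omega) hx, rfl⟩)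
      have hn : ¬ (x = q ∧ scan δ r = scan δ t0) := by
        rintro ⟨h6, h7⟩
        rw [h6, h7] at hnh
        exact hnh hqa
      simp only [g, dec_castSucc, hn, if_false] at h5
      obtain ⟨x', hx1⟩ := Option.ne_none_iff_exists'.1 hnh
      rw [hx1, Option.getD_some] at h5
      rw [run_some δ' hx', run_some δ hx, ih']
      have hc : up (run δ r).2.1 (run δ r).2.2 = (scan δ r).castSucc := rfl
      simp only [hc, h5, up_update]
      show _ = ((δ x (scan δ r)).2.2, _, _)
      rw [hx1]
      rfl
  set τ := (run δ t0).2.1 with hτ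
  set p := (run δ t0).2.2 with hp
  have hε1 : ε = 1 ∨ ε = -1 := by rw [hε]; split_ifs <;> simp
  have hpe : p + ε ≠ p := by
    intro h
    rcases hε1 with h5 | h5 <;> rw [h5] at h <;> linarith
  have B0 : run δ' t0 = (some q, up τ, p) := by rw [A t0 le_rfl, hq]
  have B1 : run δ' (t0 + 1) = (some s, Function.update (up τ) p (Fin.last (m + 1)), p + ε) := by
    rw [run_succ, B0, step_some]
    have hc : up τ p = (scan δ t0).castSucc := rfl
    simp only [hc, P2, hε]
  have B2 : run δ' (t0 + 2) = (some s', Function.update
      (Function.update (up τ) p (Fin.last (m + 1))) (p + ε) w.castSucc, p) := by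
    rw [show t0 + 2 = (t0 + 1) + 1 by ring, run_succ, B1, step_some]
    have hc : Function.update (up τ) p (Fin.last (m + 1)) (p + ε) = 0 := by
      rw [Function.update_of_ne hpe]
      show (τ (p + ε)).castSucc = 0
      rw [hnb]
      rfl
    rw [hc, P3]
    refine Prod.ext rfl (Prod.ext rfl ?_)
    simp only [hε]
    cases dir <;> simp
  set τ2 := Function.update (Function.update (up τ) p (Fin.last (m + 1))) (p + ε) w.castSucc with hτ2
  have B3 : run δ' (t0 + 3) = (none, Function.update τ2 p (Fin.last (m + 1)),
      p + (if (δ' s' (Fin.last (m + 1))).2.1 then (1 : ℤ) else -1)) := by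
    have hc : τ2 p = Fin.last (m + 1) := by
      rw [hτ2, Function.update_of_ne hpe.symm, Function.update_self]
    rw [show t0 + 3 = (t0 + 2) + 1 by ring, run_succ, B2, step_some, hc, h3, h4]
  refine ⟨δ', h1, t0 + 3, by omega, ⟨by rw [B3], ?_⟩, ?_⟩
  · intro r hr
    by_cases hr1 : r ≤ t0
    · rw [A r hr1]
      exact hT.2 r (by omega)
    · by_cases hr2 : r = t0 + 1
      · rw [hr2, B1]
        simp
      · have : r = t0 + 2 := by omega
        rw [this, B2]
        simp
  · unfold nonblank
    have hfin := (fin_nonblank δ' (t0 + 3)).1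
    apply Set.ncard_lt_ncard _ hfin
    rw [B3, run_some δ hq]
    simp only
    have hwz : w.castSucc ≠ (0 : Fin (m + 2)) := by
      intro h
      apply hw
      apply Fin.castSucc_injective
      rw [h]
      rfl
    rw [Set.ssubset_iff_of_subset]
    · refine ⟨p + ε, ?_, ?_⟩
      · rw [Set.mem_setOf_eq, Function.update_of_ne hpe, hτ2, Function.update_self]
        exact hwz
      · rw [Set.mem_setOf_eq, not_not, Function.update_of_ne hpe]
        exact hnb
    · intro i hi
      rw [Set.mem_setOf_eq] at hi ⊢
      by_cases hip : i = p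
      · rw [hip, Function.update_self]
        exact last_ne
      · rw [Function.update_of_ne hip, hτ2]
        by_cases hix : i = p + ε
        · rw [hix, Function.update_self]
          exact hwz
        · rw [Function.update_of_ne hix, Function.update_of_ne hip]
          rw [Function.update_of_ne hip] at hi
          exact up_ne.2 hi

end Pool.Agent.N469.HB
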