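import Pool.Agent.N469.HB.Gen

set_option autoImplicit false

namespace Pool.Agent.N469.HB

open Finset

/-- An explicit machine. -/
theorem explicit (n m k : ℕ) (hk1 : 1 ≤ k) (hk : k + (n + 3) ≤ (n + 2) * (m + 2)) :
    ∃ δ' : Tab n (m + 1), haltCount δ' = k ∧
      ∃ t', n + 2 < t' ∧ HaltsAt δ' t' ∧ n + 2 < nonblank δ' t' := by
  classical
  let g : Fin (n + 2) → Fin (m + 2) → Fin (m + 2) × Bool × Fin (n + 2) := fun s c =>
    if c = 0 then (if h : s.val + 1 < n + 2 then (1, true, ⟨s.val + 1, h⟩) else (1, false, 0))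
    else (1, false, 0)
  let F : Finset (Fin (n + 2) × Fin (m + 2)) := univ.image (fun s => (s, 0)) ∪ {(0, 1)}
  have h10 : (1 : Fin (m + 2)) ≠ 0 := by simp
  have h10' : (1 : Fin (n + 2)) ≠ 0 := by simp
  have he0 : ((1, 1) : Fin (n + 2) × Fin (m + 2)) ∉ F := by
    intro h
    simp only [F, mem_union, mem_image, mem_singleton, Prod.mk.injEq] at h
    rcases h with ⟨s, _, _, h⟩ | ⟨h, _⟩
    · exact h10 h.symm
    · exact h10' h
  have hFc : F.card ≤ n + 3 := by
    refine (card_union_le _ _).trans ?_
    have : (univ.image (fun s : Fin (n + 2) => (s, (0 : Fin (m + 2))))).card ≤ n + 2 := by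
      refine card_image_le.trans ?_
      simp
    simp only [card_singleton]
    omega
  obtain ⟨δ', h1, h2, h3, h4⟩ := build n (m + 1) k F (1, 1) he0 hk1
    (by
      show k + F.card ≤ (n + 2) * (m + 2)
      omega) g
  simp only at h3 h4
  have f0 : ∀ s (h : s + 1 < n + 2), δ' ⟨s, by omega⟩ 0 = (1, true, some ⟨s + 1, h⟩) := by
    intro s h
    have := h2 ⟨s, by omega⟩ 0 (by
      apply mem_union_left
      rw [mem_image]
      exact ⟨_, mem_univ _, rfl⟩)
    simp only [g, if_true, h, dif_pos] at this
    exact this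
  have f1 : δ' ⟨n + 1, by omega⟩ 0 = (1, false, some 0) := by
    have := h2 ⟨n + 1, by omega⟩ 0 (by
      apply mem_union_left
      rw [mem_image]
      exact ⟨_, mem_univ _, rfl⟩)
    have h5 : ¬ (n + 1 + 1 < n + 2) := by omega
    simp only [g, if_true, h5, dif_neg, not_false_eq_true] at this
    exact this
  have f2 : δ' 0 1 = (1, false, some 0) := by
    have := h2 0 1 (by
      apply mem_union_right
      exact mem_singleton_self _)
    simp only [g, h10, if_false] at this
    exact this
  have A : ∀ t (ht : t < n + 2), run δ' t =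
      (some ⟨t, ht⟩, fun i => if 0 ≤ i ∧ i < (t : ℤ) then 1 else 0, (t : ℤ)) := by
    intro t
    induction t with
    | zero =>
      intro _
      rw [run_zero]
      refine Prod.ext rfl (Prod.ext ?_ rfl)
      funext i
      have : ¬ (0 ≤ i ∧ i < ((0 : ℕ) : ℤ)) := by
        push_cast
        omega
      simp only [this, if_false]
    | succ t ih =>
      intro ht
      rw [run_succ, ih (by omega), step_some]
      have hs : ¬ (0 ≤ (t : ℤ) ∧ (t : ℤ) < (t : ℤ)) := by omega
      simp only [hs, if_false, f0 t ht, if_true]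
      refine Prod.ext rfl (Prod.ext ?_ (by push_cast; rfl))
      funext i
      simp only [Function.update_apply]
      by_cases hi : i = t
      · have : 0 ≤ i ∧ i < ((t + 1 : ℕ) : ℤ) := by
          push_cast
          omega
        simp only [hi, if_true]
        rw [hi] at this
        simp only [this, and_self, if_true]
      · by_cases hj : 0 ≤ i ∧ i < (t : ℤ)
        · have : 0 ≤ i ∧ i < ((t + 1 : ℕ) : ℤ) := by
            push_cast
            omega
          simp only [hi, hj, this, and_self, if_true, if_false]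
        · have : ¬ (0 ≤ i ∧ i < ((t + 1 : ℕ) : ℤ)) := by
            push_cast
            omega
          simp only [hi, hj, this, if_false]
  have B : ∀ j ≤ n + 1, run δ' (n + 2 + j) =
      (some 0, fun i => if 0 ≤ i ∧ i < (n : ℤ) + 2 then 1 else 0, (n : ℤ) - j) := by
    intro j
    induction j with
    | zero =>
      intro _
      show run δ' ((n + 1) + 1) = _
      rw [run_succ, A (n + 1) (by omega), step_some]
      have hs : ¬ (0 ≤ ((n + 1 : ℕ) : ℤ) ∧ ((n + 1 : ℕ) : ℤ) < ((n + 1 : ℕ) : ℤ)) := by omega
      simp only [hs, if_false, f1]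
      refine Prod.ext rfl (Prod.ext ?_ (by simp))
      funext i
      simp only [Function.update_apply]
      by_cases hi : i = ((n + 1 : ℕ) : ℤ)
      · have : 0 ≤ i ∧ i < (n : ℤ) + 2 := by
          push_cast at hi
          omega
        simp only [hi, if_true]
        rw [hi] at this
        simp only [this, and_self, if_true]
      · by_cases hj : 0 ≤ i ∧ i < ((n + 1 : ℕ) : ℤ)
        · have : 0 ≤ i ∧ i < (n : ℤ) + 2 := by
            push_cast at hj
            omega
          simp only [hi, hj, this, and_self, if_true, if_false]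
        · have : ¬ (0 ≤ i ∧ i < (n : ℤ) + 2) := by
            push_cast at hj hi
            omega
          simp only [hi, hj, this, if_false]
    | succ j ih =>
      intro hj
      rw [show n + 2 + (j + 1) = (n + 2 + j) + 1 by ring, run_succ, ih (by omega), step_some]
      have hs : 0 ≤ (n : ℤ) - j ∧ (n : ℤ) - j < (n : ℤ) + 2 := by omega
      simp only [hs, and_self, if_true, f2]
      refine Prod.ext rfl (Prod.ext ?_ (by push_cast; ring))
      funext i
      simp only [Function.update_apply]
      by_cases hi : i = (n : ℤ) - j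
      · simp only [hi, if_true, hs, and_self]
      · simp only [hi, if_false]
  have C : run δ' (2 * n + 4) =
      (some 1, fun i => if -1 ≤ i ∧ i < (n : ℤ) + 2 then 1 else 0, 0) := by
    rw [show 2 * n + 4 = (n + 2 + (n + 1)) + 1 by ring, run_succ, B (n + 1) le_rfl, step_some]
    have hs : ¬ (0 ≤ (n : ℤ) - ((n + 1 : ℕ) : ℤ) ∧ (n : ℤ) - ((n + 1 : ℕ) : ℤ) < (n : ℤ) + 2) := by
      push_cast
      omega
    have hf := f0 0 (by omega)
    have hz : (⟨0, by omega⟩ : Fin (n + 2)) = 0 := rfl
    have hz1 : (⟨0 + 1, by omega⟩ : Fin (n + 2)) = 1 := by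
      apply Fin.ext
      simp
    rw [hz, hz1] at hf
    simp only [hs, if_false, hf, if_true]
    refine Prod.ext rfl (Prod.ext ?_ (by push_cast; ring))
    funext i
    simp only [Function.update_apply]
    by_cases hi : i = (n : ℤ) - ((n + 1 : ℕ) : ℤ)
    · have : -1 ≤ i ∧ i < (n : ℤ) + 2 := by
        push_cast at hi
        omega
      simp only [hi, if_true]
      rw [hi] at this
      simp only [this, and_self, if_true]
    · by_cases hj : 0 ≤ i ∧ i < (n : ℤ) + 2
      · have : -1 ≤ i ∧ i < (n : ℤ) + 2 := by omega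
        simp only [hi, hj, this, and_self, if_true, if_false]
      · have : ¬ (-1 ≤ i ∧ i < (n : ℤ) + 2) := by
          push_cast at hi
          omega
        simp only [hi, hj, this, if_false]
  have D : run δ' (2 * n + 5) = (none,
      Function.update (fun i : ℤ => if -1 ≤ i ∧ i < (n : ℤ) + 2 then (1 : Fin (m + 2)) else 0) 0
        (Fin.last (m + 1)), 0 + (if (δ' 1 1).2.1 then (1 : ℤ) else -1)) := by
    rw [show 2 * n + 5 = (2 * n + 4) + 1 by ring, run_succ, C, step_some]
    have hs : -1 ≤ (0 : ℤ) ∧ (0 : ℤ) < (n : ℤ) + 2 := by omega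
    simp only [hs, and_self, if_true, h3, h4]
  refine ⟨δ', h1, 2 * n + 5, by omega, ⟨by rw [D], ?_⟩, ?_⟩
  · intro s hs
    by_cases hs1 : s < n + 2
    · rw [A s hs1]
      simp
    · by_cases hs2 : s < 2 * n + 4
      · obtain ⟨j, hj⟩ : ∃ j, s = n + 2 + j := ⟨s - (n + 2), by omega⟩
        rw [hj, B j (by omega)]
        simp
      · have : s = 2 * n + 4 := by omega
        rw [this, C]
        simp
  · unfold nonblank
    have hfin := (fin_nonblank δ' (2 * n + 5)).1
    have hlast : Fin.last (m + 1) ≠ 0 := by
      intro h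
      have := congrArg Fin.val h
      simp at this
    have hsub : ((Finset.Icc (-1 : ℤ) ((n : ℤ) + 1) : Finset ℤ) : Set ℤ) ⊆
        {i : ℤ | (run δ' (2 * n + 5)).2.1 i ≠ 0} := by
      intro i hi
      rw [Finset.coe_Icc, Set.mem_Icc] at hi
      rw [Set.mem_setOf_eq, D]
      simp only [Function.update_apply]
      by_cases hi0 : i = 0
      · simp only [hi0, if_true]
        exact hlast
      · have : -1 ≤ i ∧ i < (n : ℤ) + 2 := by omega
        simp only [hi0, this, and_self, if_true, if_false]
        exact h10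
    have hle := Set.ncard_le_ncard hsub hfin
    rw [Set.ncard_coe_finset, Int.card_Icc] at hle
    have : ((n : ℤ) + 1 + 1 - -1).toNat = n + 3 := by omega
    rw [this] at hle
    omega

end Pool.Agent.N469.HB
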