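import Pool.Agent.N469.HB.Pre

set_option autoImplicit false

namespace Pool.Agent.N469.HB

open Finset

variable {n m : ℕ}

/-- Before the last step (at time `t0`), the head moves from the cell `a` to the cell `b` and the
state `s` is entered. -/
def Cross (δ : Tab n m) (t0 : ℕ) (a b : ℤ) (s : Fin (n + 2)) : Prop :=
  ∃ r < t0, (run δ r).2.2 = a ∧ (run δ (r + 1)).2.2 = b ∧ (run δ (r + 1)).1 = some s

/-- Cells of the old machine as cells of the new one: the cell `0` is new. -/
def ph (ε j : ℤ) : ℤ := if 0 ≤ ε * j then j + ε else j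

/-- The inverse map. -/
def ps (ε i : ℤ) : ℤ := if 0 < ε * i then i - ε else i

lemma ph_ne {ε : ℤ} (hε : ε = 1 ∨ ε = -1) (j : ℤ) : ph ε j ≠ 0 := by
  unfold ph
  rcases hε with rfl | rfl <;> split_ifs <;> omega

lemma ps_ph {ε : ℤ} (hε : ε = 1 ∨ ε = -1) (j : ℤ) : ps ε (ph ε j) = j := by
  unfold ph ps
  rcases hε with rfl | rfl <;> split_ifs <;> omega

lemma ph_ps {ε : ℤ} (hε : ε = 1 ∨ ε = -1) (i : ℤ) (hi : i ≠ 0) : ph ε (ps ε i) = i := by
  unfold ph ps
  rcases hε with rfl | rfl <;> split_ifs <;> omega

lemma ph_inj {ε : ℤ} (hε : ε = 1 ∨ ε = -1) : Function.Injective (ph ε) := by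
  intro a b h
  rw [← ps_ph hε a, h, ps_ph hε b]

lemma ph_move {ε : ℤ} (hε : ε = 1 ∨ ε = -1) (j d : ℤ) (hd : d = 1 ∨ d = -1)
    (h1 : ¬ (j = 0 ∧ j + d = -ε)) (h2 : ¬ (j = -ε ∧ j + d = 0)) :
    ph ε (j + d) = ph ε j + d := by
  unfold ph
  rcases hε with rfl | rfl <;> rcases hd with rfl | rfl <;> split_ifs <;> omega

/-- The tape of the new machine. -/
def wide (ε : ℤ) (τ : ℤ → Fin (m + 1)) : ℤ → Fin (m + 2) := fun i =>
  if i = 0 then Fin.last (m + 1) else (τ (ps ε i)).castSucc

lemma wide_ph {ε : ℤ} (hε : ε = 1 ∨ ε = -1) (τ : ℤ → Fin (m + 1)) (j : ℤ) :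
    wide ε τ (ph ε j) = (τ j).castSucc := by
  unfold wide
  rw [if_neg (ph_ne hε j), ps_ph hε]

lemma wide_update {ε : ℤ} (hε : ε = 1 ∨ ε = -1) (τ : ℤ → Fin (m + 1)) (j : ℤ)
    (w : Fin (m + 1)) :
    Function.update (wide ε τ) (ph ε j) w.castSucc = wide ε (Function.update τ j w) := by
  funext i
  by_cases h : i = ph ε j
  · subst h
    rw [Function.update_self, wide_ph hε, Function.update_self]
  · rw [Function.update_of_ne h]
    unfold wide
    by_cases h0 : i = 0
    · rw [if_pos h0, if_pos h0]
    · rw [if_neg h0, if_neg h0, Function.update_of_ne]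
      intro h1
      apply h
      rw [← h1, ph_ps hε i h0]

/-- The halting state is absorbing. -/
lemma absorb (δ : Tab n m) {s r : ℕ} (h : s ≤ r) (hs : (run δ s).1 = none) :
    (run δ r).1 = none := by
  induction r, h using Nat.le_induction with
  | base => exact hs
  | succ r _ ih => rw [run_none δ ih]; exact ih

theorem ins (δ : Tab n m) (hk1 : 1 ≤ haltCount δ) (t0 : ℕ)
    (hT : HaltsAt δ (t0 + 1)) (dir : Bool) (ε : ℤ) (hε : ε = if dir then 1 else -1)
    (sx : Fin (n + 2)) (hsx : ∀ r ≤ t0, (run δ r).1 = some sx → scan δ r ≠ 0)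
    (hc1 : ∀ s, ¬ (Cross δ t0 0 (-ε) s ∧ Cross δ t0 (-ε) 0 s))
    (hc2 : ∃ s, ¬ Cross δ t0 0 (-ε) s ∧ ¬ Cross δ t0 (-ε) 0 s) :
    ∃ δ' : Tab n (m + 1), haltCount δ' = haltCount δ ∧
      ∃ t', t0 + 1 < t' ∧ HaltsAt δ' t' ∧ nonblank δ (t0 + 1) < nonblank δ' t' := by
  classical
  have hε1 : ε = 1 ∨ ε = -1 := by rw [hε]; split_ifs <;> simp
  obtain ⟨q, hq⟩ := Option.ne_none_iff_exists'.1 (hT.2 t0 (by omega))
  have hqa : (δ q (scan δ t0)).2.2 = none := by
    rw [← next_state δ hq]
    exact hT.1
  set σ : Equiv.Perm (Fin (n + 2)) := Equiv.swap 0 sx with hσ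
  have hσσ : ∀ x, σ (σ x) = x := fun x => Equiv.swap_apply_self _ _ x
  have hσx : σ sx = 0 := Equiv.swap_apply_right _ _
  have hσ0 : σ 0 = sx := Equiv.swap_apply_left _ _
  let g : Fin (n + 2) → Fin (m + 2) → Fin (m + 2) × Bool × Fin (n + 2) := fun x c =>
    if c = 0 ∧ σ x = sx then (Fin.last (m + 1), dir, σ 0)
    else if c = Fin.last (m + 1) then
      (Fin.last (m + 1), if Cross δ t0 (-ε) 0 (σ x) then dir else !dir, x)
    else ((δ (σ x) (dec c)).1.castSucc, (δ (σ x) (dec c)).2.1, σ ((δ (σ x) (dec c)).2.2.getD 0))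
  let CS : Finset (Fin (n + 2)) :=
    univ.filter (fun s => Cross δ t0 0 (-ε) s ∨ Cross δ t0 (-ε) 0 s)
  have hCS : CS.card ≤ n + 1 := by
    obtain ⟨s, hs1, hs2⟩ := hc2
    have h1 : CS ⊆ univ.erase s := by
      intro x hx
      rw [mem_erase]
      refine ⟨?_, mem_univ _⟩
      rintro rfl
      simp only [CS, mem_filter] at hx
      rcases hx.2 with h | h
      · exact hs1 h
      · exact hs2 h
    have h2 := card_le_card h1
    rw [card_erase_of_mem (mem_univ _), card_univ, Fintype.card_fin] at h2
    omega
  let F : Finset (Fin (n + 2) × Fin (m + 2)) :=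
    (used δ t0).image (fun p => (σ p.1, p.2.castSucc)) ∪
      ({(σ sx, 0)} ∪ CS.image (fun s => (σ s, Fin.last (m + 1))))
  have hFc : F.card ≤ (used δ t0).card + (1 + (n + 1)) := by
    refine (card_union_le _ _).trans (add_le_add card_image_le ?_)
    refine (card_union_le _ _).trans (add_le_add (by simp) (card_image_le.trans hCS))
  have hne : ∀ c : Fin (m + 1), c.castSucc ≠ Fin.last (m + 1) := fun c => (Fin.castSucc_lt_last c).ne
  have hz : ∀ c : Fin (m + 1), c.castSucc = (0 : Fin (m + 2)) → c = 0 := by
    intro c hc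
    apply Fin.castSucc_injective
    rw [hc]
    rfl
  have he0 : ((σ q, (scan δ t0).castSucc) : Fin (n + 2) × Fin (m + 2)) ∉ F := by
    intro h
    simp only [F, mem_union, mem_image, mem_singleton, Prod.mk.injEq] at h
    rcases h with ⟨p, hp, h1, h2⟩ | ⟨h1, h2⟩ | ⟨s, hs, h1, h2⟩
    · have h3 : p.1 = q := σ.injective h1
      have h4 : p.2 = scan δ t0 := Fin.castSucc_injective _ h2
      exact used_nonhalt δ t0 hT p hp (by rw [h3, h4]; exact hqa)
    · have h3 : q = sx := σ.injective h1
      rw [h3] at hq
      exact hsx t0 le_rfl hq (hz _ h2)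
    · exact hne _ h2.symm
  have hU := used_card δ t0 hT
  obtain ⟨δ', h1, h2, h3, h4⟩ := build n (m + 1) (haltCount δ) F
    (σ q, (scan δ t0).castSucc) he0 hk1
    (by
      have : (n + 2) * (m + 1 + 1) = (n + 2) * (m + 1) + (n + 2) := by ring
      rw [this]
      omega) g
  simp only at h3 h4
  have A : ∀ r ≤ t0, ∃ r' : ℕ, r + 1 ≤ r' ∧
      run δ' r' = ((run δ r).1.map σ, wide ε (run δ r).2.1, ph ε (run δ r).2.2) := by
    intro r
    induction r with
    | zero =>
      intro _
      refine ⟨1, le_rfl, ?_⟩
      have h5 := h2 0 0 (by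
        apply mem_union_right
        apply mem_union_left
        rw [hσx]
        exact mem_singleton_self _)
      have h6 : g 0 0 = (Fin.last (m + 1), dir, σ 0) := by
        simp only [g, hσ0, and_self, if_true]
      rw [h6] at h5
      show run δ' (0 + 1) = _
      rw [run_succ, run_zero, step_some]
      simp only [h5, run_zero]
      refine Prod.ext rfl (Prod.ext ?_ ?_)
      · funext i
        simp only [wide, Function.update_apply]
        by_cases hi : i = 0
        · rw [if_pos hi, if_pos hi]
        · rw [if_neg hi, if_neg hi]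
          rfl
      · have hp0 : ph ε 0 = ε := by
          unfold ph
          simp
        simp only
        rw [hp0, hε, zero_add]
    | succ r ih =>
      intro hr
      obtain ⟨r', hr', ih'⟩ := ih (by omega)
      obtain ⟨s, hs⟩ := Option.ne_none_iff_exists'.1 (hT.2 r (by omega))
      rw [hs, Option.map_some] at ih'
      have hnh : (δ s (scan δ r)).2.2 ≠ none := by
        rw [← next_state δ hs]
        exact hT.2 (r + 1) (by omega)
      have hmu := mem_used δ (show r < t0 by omega) hs
      have hmem : (σ s, (scan δ r).castSucc) ∈ F := by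
        apply mem_union_left
        rw [mem_image]
        exact ⟨_, hmu, rfl⟩
      have h5 := h2 _ _ hmem
      have hn : ¬ ((scan δ r).castSucc = (0 : Fin (m + 2)) ∧ s = sx) := by
        rintro ⟨h6, h7⟩
        rw [h7] at hs
        exact hsx r (by omega) hs (hz _ h6)
      have h6 : g (σ s) (scan δ r).castSucc = ((δ s (scan δ r)).1.castSucc,
          (δ s (scan δ r)).2.1, σ ((δ s (scan δ r)).2.2.getD 0)) := by
        simp only [g, hσσ, dec_castSucc]
        rw [if_neg hn, if_neg (hne _)]
      rw [h6] at h5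
      obtain ⟨s', hs'⟩ := Option.ne_none_iff_exists'.1 hnh
      rw [hs', Option.getD_some] at h5
      have h7 : run δ (r + 1) = ((δ s (scan δ r)).2.2,
          Function.update (run δ r).2.1 (run δ r).2.2 (δ s (scan δ r)).1,
          (run δ r).2.2 + (if (δ s (scan δ r)).2.1 then (1 : ℤ) else -1)) := run_some δ hs
      set d : ℤ := if (δ s (scan δ r)).2.1 then (1 : ℤ) else -1 with hd
      have hd1 : d = 1 ∨ d = -1 := by rw [hd]; split_ifs <;> simp
      have h8 : run δ' (r' + 1) = (some (σ s'), wide ε (run δ (r + 1)).2.1,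
          ph ε (run δ r).2.2 + d) := by
        rw [run_succ, ih', step_some, wide_ph hε1]
        show ((δ' (σ s) (scan δ r).castSucc).2.2, _, _) = _
        have h9 : ((run δ r).2.1 (run δ r).2.2).castSucc = (scan δ r).castSucc := rfl
        rw [h9, h5]
        simp only
        rw [wide_update hε1, h7]
      have h9 : (run δ (r + 1)).1 = some s' := by rw [h7]; exact hs'
      by_cases hx1 : (run δ r).2.2 = 0 ∧ (run δ r).2.2 + d = -ε
      · have hcr : Cross δ t0 0 (-ε) s' := ⟨r, by omega, hx1.1, by rw [h7]; exact hx1.2, h9⟩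
        have hncr : ¬ Cross δ t0 (-ε) 0 s' := fun h => hc1 s' ⟨hcr, h⟩
        refine ⟨r' + 1 + 1, by omega, ?_⟩
        have hp0 : ph ε (run δ r).2.2 + d = 0 := by
          unfold ph
          rcases hε1 with h | h <;> rw [h] at hx1 ⊢ <;> split_ifs <;> omega
        have h10 := h2 (σ s') (Fin.last (m + 1)) (by
          apply mem_union_right
          apply mem_union_right
          rw [mem_image]
          refine ⟨s', ?_, rfl⟩
          simp only [CS, mem_filter]
          exact ⟨mem_univ _, Or.inl hcr⟩)
        have h11 : g (σ s') (Fin.last (m + 1)) = (Fin.last (m + 1), !dir, σ s') := by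
          simp only [g, hσσ]
          rw [if_neg (fun h => last_ne h.1)]
          simp only [if_true, hncr, if_false]
        rw [h11] at h10
        rw [run_succ, h8, step_some, hp0]
        have h12 : wide ε (run δ (r + 1)).2.1 0 = Fin.last (m + 1) := by simp [wide]
        rw [h12, h10]
        simp only
        rw [h9, Option.map_some]
        refine Prod.ext rfl (Prod.ext ?_ ?_)
        · simp only
          rw [← h12, Function.update_eq_self]
        · simp only
          rw [h7]
          simp only
          rw [hx1.2, hε]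
          unfold ph
          cases dir <;> simp
      · by_cases hx2 : (run δ r).2.2 = -ε ∧ (run δ r).2.2 + d = 0
        · have hcr : Cross δ t0 (-ε) 0 s' := ⟨r, by omega, hx2.1, by rw [h7]; exact hx2.2, h9⟩
          refine ⟨r' + 1 + 1, by omega, ?_⟩
          have hp0 : ph ε (run δ r).2.2 + d = 0 := by
            unfold ph
            rcases hε1 with h | h <;> rw [h] at hx2 ⊢ <;> split_ifs <;> omega
          have h10 := h2 (σ s') (Fin.last (m + 1)) (by
            apply mem_union_right
            apply mem_union_right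
            rw [mem_image]
            refine ⟨s', ?_, rfl⟩
            simp only [CS, mem_filter]
            exact ⟨mem_univ _, Or.inr hcr⟩)
          have h11 : g (σ s') (Fin.last (m + 1)) = (Fin.last (m + 1), dir, σ s') := by
            simp only [g, hσσ]
            rw [if_neg (fun h => last_ne h.1)]
            simp only [if_true, hcr]
          rw [h11] at h10
          rw [run_succ, h8, step_some, hp0]
          have h12 : wide ε (run δ (r + 1)).2.1 0 = Fin.last (m + 1) := by simp [wide]
          rw [h12, h10]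
          simp only
          rw [h9, Option.map_some]
          refine Prod.ext rfl (Prod.ext ?_ ?_)
          · simp only
            rw [← h12, Function.update_eq_self]
          · simp only
            rw [h7]
            simp only
            rw [hx2.2, hε]
            unfold ph
            cases dir <;> simp
        · refine ⟨r' + 1, by omega, ?_⟩
          rw [h8, h9, Option.map_some]
          refine Prod.ext rfl (Prod.ext rfl ?_)
          simp only
          rw [h7]
          simp only
          rw [ph_move hε1 _ _ hd1 hx1 hx2]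
  obtain ⟨r', hr', B⟩ := A t0 le_rfl
  rw [hq, Option.map_some] at B
  set τ := (run δ t0).2.1 with hτ
  set p := (run δ t0).2.2 with hp
  have D : run δ' (r' + 1) = (none, Function.update (wide ε τ) (ph ε p) (Fin.last (m + 1)),
      ph ε p + (if (δ' (σ q) (scan δ t0).castSucc).2.1 then (1 : ℤ) else -1)) := by
    rw [run_succ, B, step_some, wide_ph hε1]
    have h9 : (τ p).castSucc = (scan δ t0).castSucc := rfl
    rw [h9, h3, h4]
  refine ⟨δ', h1, r' + 1, by omega, ⟨by rw [D], ?_⟩, ?_⟩
  · intro s hs h5
    have := absorb δ' (show s ≤ r' by omega) h5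
    rw [B] at this
    simp at this
  · unfold nonblank
    have hfin := (fin_nonblank δ' (r' + 1)).1
    rw [← Set.ncard_image_of_injective _ (ph_inj hε1)]
    apply Set.ncard_lt_ncard _ hfin
    rw [D, run_some δ hq]
    simp only
    rw [Set.ssubset_iff_of_subset]
    · refine ⟨0, ?_, ?_⟩
      · rw [Set.mem_setOf_eq, Function.update_of_ne (ph_ne hε1 p).symm]
        simp [wide]
      · rintro ⟨j, _, hj⟩
        exact ph_ne hε1 j hj
    · rintro _ ⟨j, hj, rfl⟩
      rw [Set.mem_setOf_eq] at hj ⊢
      by_cases hjp : j = p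
      · rw [hjp, Function.update_self]
        exact last_ne
      · rw [Function.update_of_ne (fun h => hjp (ph_inj hε1 h)), wide_ph hε1]
        rw [Function.update_of_ne hjp] at hj
        intro h
        exact hj (hz _ h)

end Pool.Agent.N469.HB
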