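import Pool.Agent.N469.HB.Gen

set_option autoImplicit false

namespace Pool.Agent.N469.HB

open Finset

variable {n m : ℕ}

/-- Non-blank cells have been scanned. -/
lemma visited (δ : Tab n m) (t : ℕ) (i : ℤ) (h : (run δ t).2.1 i ≠ 0) :
    ∃ r < t, (run δ r).2.2 = i := by
  induction t with
  | zero => exact absurd rfl h
  | succ t ih =>
    cases hq : (run δ t).1 with
    | none =>
      rw [run_none δ hq] at h
      obtain ⟨r, hr, h1⟩ := ih h
      exact ⟨r, by omega, h1⟩
    | some q =>
      by_cases hip : i = (run δ t).2.2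
      · exact ⟨t, by omega, hip.symm⟩
      · have he : (run δ (t + 1)).2.1 i = (run δ t).2.1 i := by
          rw [run_some δ hq]
          simp only
          rw [Function.update_of_ne hip]
        rw [he] at h
        obtain ⟨r, hr, h1⟩ := ih h
        exact ⟨r, by omega, h1⟩

/-- The new symbol is used as a second blank. -/
def enc (w : Fin (m + 1)) : Fin (m + 2) := if w = 0 then Fin.last (m + 1) else w.castSucc

/-- Reading the new symbol as a blank. -/
def dec : Fin (m + 2) → Fin (m + 1) := Fin.lastCases 0 id

lemma dec_castSucc (c : Fin (m + 1)) : dec c.castSucc = c := by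
  simp [dec]

lemma dec_last : dec (Fin.last (m + 1)) = (0 : Fin (m + 1)) := by
  simp [dec]

lemma last_ne : Fin.last (m + 1) ≠ 0 := by
  intro h
  have := congrArg Fin.val h
  simp at this

lemma dec_enc (w : Fin (m + 1)) : dec (enc w) = w := by
  unfold enc
  split_ifs with h
  · rw [dec_last, h]
  · exact dec_castSucc w

lemma enc_ne (w : Fin (m + 1)) : enc w ≠ 0 := by
  unfold enc
  split_ifs with h
  · exact last_ne
  · intro h2
    apply h
    apply Fin.castSucc_injective
    rw [h2]
    rfl

lemma dec_zero : dec (0 : Fin (m + 2)) = 0 := by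
  have : (0 : Fin (m + 2)) = (0 : Fin (m + 1)).castSucc := rfl
  rw [this, dec_castSucc]

lemma enc_or (w : Fin (m + 1)) : enc w = w.castSucc ∨ (enc w = Fin.last (m + 1) ∧ w = 0) := by
  unfold enc
  split_ifs with h
  · exact Or.inr ⟨rfl, h⟩
  · exact Or.inl rfl

theorem pre (δ : Tab n m) (hk1 : 1 ≤ haltCount δ) (t0 : ℕ)
    (hT : HaltsAt δ (t0 + 1)) (dir : Bool) (ε : ℤ) (hε : ε = if dir then 1 else -1)
    (sx : Fin (n + 2)) (hsx : ∀ r ≤ t0, (run δ r).1 = some sx → scan δ r ≠ 0)
    (hc : (∃ r ≤ t0, (run δ (t0 + 1)).2.1 (run δ r).2.2 = 0) ∨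
      (∀ r ≤ t0, (run δ r).2.2 ≠ -ε)) :
    ∃ δ' : Tab n (m + 1), haltCount δ' = haltCount δ ∧
      ∃ t', t0 + 1 < t' ∧ HaltsAt δ' t' ∧ nonblank δ (t0 + 1) < nonblank δ' t' := by
  classical
  obtain ⟨q, hq⟩ := Option.ne_none_iff_exists'.1 (hT.2 t0 (by omega))
  have hqa : (δ q (scan δ t0)).2.2 = none := by
    rw [← next_state δ hq]
    exact hT.1
  set σ : Equiv.Perm (Fin (n + 2)) := Equiv.swap 0 sx with hσ
  have hσσ : ∀ x, σ (σ x) = x := fun x => Equiv.swap_apply_self _ _ x
  have hσx : σ sx = 0 := Equiv.swap_apply_right _ _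
  have hσ0 : σ 0 = sx := Equiv.swap_apply_left _ _
  let E : ℕ → ℤ → Fin (m + 2) := fun r i =>
    if (∃ r' < r, (run δ r').2.2 = i - ε) ∨ i = 0 then enc ((run δ r).2.1 (i - ε)) else 0
  have hE : ∀ r i, E r i = ((run δ r).2.1 (i - ε)).castSucc ∨
      (E r i = Fin.last (m + 1) ∧ (run δ r).2.1 (i - ε) = 0) := by
    intro r i
    by_cases h : (∃ r' < r, (run δ r').2.2 = i - ε) ∨ i = 0
    · simp only [E, h, if_true]
      exact enc_or _
    · simp only [E, h, if_false]
      left
      have : (run δ r).2.1 (i - ε) = 0 := by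
        by_contra h2
        exact h (Or.inl (visited δ r _ h2))
      rw [this]
      rfl
  have hdE : ∀ r i, dec (E r i) = (run δ r).2.1 (i - ε) := by
    intro r i
    rcases hE r i with h | ⟨h, h'⟩
    · rw [h, dec_castSucc]
    · rw [h, dec_last, h']
  let g : Fin (n + 2) → Fin (m + 2) → Fin (m + 2) × Bool × Fin (n + 2) := fun x c =>
    if c = 0 ∧ σ x = sx then (Fin.last (m + 1), dir, σ 0)
    else (enc (δ (σ x) (dec c)).1, (δ (σ x) (dec c)).2.1, σ ((δ (σ x) (dec c)).2.2.getD 0))
  let U0 := (used δ t0).filter (fun p => p.2 = 0)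
  let F : Finset (Fin (n + 2) × Fin (m + 2)) :=
    (used δ t0).image (fun p => (σ p.1, p.2.castSucc)) ∪
      ({(σ sx, 0)} ∪ U0.image (fun p => (σ p.1, Fin.last (m + 1))))
  have hU0 : U0.card ≤ n + 1 := by
    have h1 : U0.card = (U0.image Prod.fst).card := by
      rw [card_image_of_injOn]
      intro p hp p' hp' h
      rw [mem_coe, mem_filter] at hp hp'
      exact Prod.ext h (hp.2.trans hp'.2.symm)
    have h2 : U0.image Prod.fst ⊆ univ.erase sx := by
      intro s hs
      rw [mem_image] at hs
      obtain ⟨p, hp, rfl⟩ := hs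
      rw [mem_filter] at hp
      rw [mem_erase]
      refine ⟨?_, mem_univ _⟩
      intro h3
      have h4 := hp.1
      unfold used at h4
      rw [mem_filter] at h4
      obtain ⟨_, r, hr, h5, h6⟩ := h4
      rw [h3] at h5
      exact hsx r (by omega) h5 (h6.trans hp.2)
    have h3 := card_le_card h2
    rw [card_erase_of_mem (mem_univ _), card_univ, Fintype.card_fin] at h3
    omega
  have hFc : F.card ≤ (used δ t0).card + (1 + (n + 1)) := by
    refine (card_union_le _ _).trans (add_le_add card_image_le ?_)
    refine (card_union_le _ _).trans (add_le_add (by simp) (card_image_le.trans hU0))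
  have hps : (run δ t0).2.2 + ε - ε = (run δ t0).2.2 := by ring
  have hdx : dec (E t0 ((run δ t0).2.2 + ε)) = scan δ t0 := by
    rw [hdE, hps]
    rfl
  have he0 : ((σ q, E t0 ((run δ t0).2.2 + ε)) : Fin (n + 2) × Fin (m + 2)) ∉ F := by
    intro h
    simp only [F, mem_union, mem_image, mem_singleton, Prod.mk.injEq] at h
    rcases h with ⟨p, hp, h1, h2⟩ | ⟨h1, h2⟩ | ⟨p, hp, h1, h2⟩
    · have h3 : p.1 = q := σ.injective h1
      have h4 : p.2 = scan δ t0 := by rw [← hdx, ← h2, dec_castSucc]
      exact used_nonhalt δ t0 hT p hp (by rw [h3, h4]; exact hqa)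
    · have h3 : q = sx := σ.injective h1
      rw [h3] at hq
      apply hsx t0 le_rfl hq
      rw [← hdx, h2, dec_zero]
    · simp only [U0, mem_filter] at hp
      have h3 : p.1 = q := σ.injective h1
      have h4 : p.2 = scan δ t0 := by rw [← hdx, ← h2, dec_last, hp.2]
      exact used_nonhalt δ t0 hT p hp.1 (by rw [h3, h4]; exact hqa)
  have hU := used_card δ t0 hT
  obtain ⟨δ', h1, h2, h3, h4⟩ := build n (m + 1) (haltCount δ) F
    (σ q, E t0 ((run δ t0).2.2 + ε)) he0 hk1
    (by
      have : (n + 2) * (m + 1 + 1) = (n + 2) * (m + 1) + (n + 2) := by ring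
      rw [this]
      omega) g
  simp only at h3 h4
  have A : ∀ r ≤ t0, run δ' (r + 1) = ((run δ r).1.map σ, E r, (run δ r).2.2 + ε) := by
    intro r
    induction r with
    | zero =>
      intro _
      have h5 := h2 0 0 (by
        apply mem_union_right
        apply mem_union_left
        rw [hσx]
        exact mem_singleton_self _)
      have h6 : g 0 0 = (Fin.last (m + 1), dir, σ 0) := by
        simp only [g, hσ0, and_self, if_true]
      rw [h6] at h5
      rw [run_succ, run_zero, step_some]
      simp only [h5, run_zero]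
      refine Prod.ext rfl (Prod.ext ?_ (by simp [hε]))
      funext i
      simp only [E, Function.update_apply, run_zero]
      by_cases hi : i = 0
      · simp [hi, enc]
      · have : ¬ ((∃ r' < 0, (run δ r').2.2 = i - ε) ∨ i = 0) := by
          rintro (⟨r', hr', _⟩ | h)
          · omega
          · exact hi h
        rw [if_neg hi, if_neg this]
    | succ r ih =>
      intro hr
      have ih' := ih (by omega)
      obtain ⟨s, hs⟩ := Option.ne_none_iff_exists'.1 (hT.2 r (by omega))
      rw [hs, Option.map_some] at ih'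
      have hpr : (run δ r).2.2 + ε - ε = (run δ r).2.2 := by ring
      have hdr : dec (E r ((run δ r).2.2 + ε)) = scan δ r := by
        rw [hdE, hpr]
        rfl
      have hnh : (δ s (scan δ r)).2.2 ≠ none := by
        rw [← next_state δ hs]
        exact hT.2 (r + 1) (by omega)
      have hmu := mem_used δ (show r < t0 by omega) hs
      have hmem : (σ s, E r ((run δ r).2.2 + ε)) ∈ F := by
        rcases hE r ((run δ r).2.2 + ε) with h5 | ⟨h5, h6⟩
        · apply mem_union_left
          rw [mem_image]
          refine ⟨_, hmu, ?_⟩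
          rw [h5, hpr]
          rfl
        · apply mem_union_right
          apply mem_union_right
          rw [mem_image]
          refine ⟨(s, scan δ r), ?_, ?_⟩
          · simp only [U0, mem_filter]
            rw [hpr] at h6
            exact ⟨hmu, h6⟩
          · rw [h5]
      have h5 := h2 _ _ hmem
      have hn : ¬ (E r ((run δ r).2.2 + ε) = 0 ∧ s = sx) := by
        rintro ⟨h6, h7⟩
        rw [h7] at hs
        apply hsx r (by omega) hs
        rw [← hdr, h6, dec_zero]
      have h6 : g (σ s) (E r ((run δ r).2.2 + ε)) = (enc (δ s (scan δ r)).1,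
          (δ s (scan δ r)).2.1, σ ((δ s (scan δ r)).2.2.getD 0)) := by
        simp only [g, hσσ, hn, if_false, hdr]
      rw [h6] at h5
      obtain ⟨s', hs'⟩ := Option.ne_none_iff_exists'.1 hnh
      rw [hs', Option.getD_some] at h5
      rw [run_succ, ih', step_some, h5]
      have h7 : run δ (r + 1) = ((δ s (scan δ r)).2.2,
          Function.update (run δ r).2.1 (run δ r).2.2 (δ s (scan δ r)).1,
          (run δ r).2.2 + (if (δ s (scan δ r)).2.1 then (1 : ℤ) else -1)) := run_some δ hs
      simp only [h7, hs']
      refine Prod.ext rfl (Prod.ext ?_ (by simp only; ring))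
      funext i
      simp only [E, Function.update_apply, h7]
      by_cases hi : i = (run δ r).2.2 + ε
      · have h8 : (∃ r' < r + 1, (run δ r').2.2 = i - ε) ∨ i = 0 :=
          Or.inl ⟨r, by omega, by rw [hi]; ring⟩
        have h9 : i - ε = (run δ r).2.2 := by rw [hi]; ring
        rw [if_pos hi, if_pos h8, if_pos h9]
      · have h9 : i - ε ≠ (run δ r).2.2 := by
          intro h
          apply hi
          rw [← h]
          ring
        have h8 : ((∃ r' < r + 1, (run δ r').2.2 = i - ε) ∨ i = 0) ↔
            ((∃ r' < r, (run δ r').2.2 = i - ε) ∨ i = 0) := by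
          constructor
          · rintro (⟨r', hr', h10⟩ | h10)
            · left
              refine ⟨r', ?_, h10⟩
              rcases Nat.lt_or_ge r' r with h11 | h11
              · exact h11
              · exfalso
                have : r' = r := by omega
                rw [this] at h10
                exact h9 h10.symm
            · exact Or.inr h10
          · rintro (⟨r', hr', h10⟩ | h10)
            · exact Or.inl ⟨r', by omega, h10⟩
            · exact Or.inr h10
        rw [if_neg hi, if_neg h9]
        simp only [h8]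
  have D : run δ' (t0 + 2) = (none,
      Function.update (E t0) ((run δ t0).2.2 + ε) (Fin.last (m + 1)),
      (run δ t0).2.2 + ε + (if (δ' (σ q) (E t0 ((run δ t0).2.2 + ε))).2.1 then (1 : ℤ) else -1)) := by
    rw [show t0 + 2 = (t0 + 1) + 1 by ring, run_succ, A t0 le_rfl, hq, Option.map_some, step_some,
      h3, h4]
  refine ⟨δ', h1, t0 + 2, by omega, ⟨by rw [D], ?_⟩, ?_⟩
  · intro s hs
    cases s with
    | zero =>
      rw [run_zero]
      simp
    | succ r =>
      rw [A r (by omega)]
      obtain ⟨s', hs'⟩ := Option.ne_none_iff_exists'.1 (hT.2 r (by omega))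
      rw [hs']
      simp
  · unfold nonblank
    have hfin := (fin_nonblank δ' (t0 + 2)).1
    have hB : ∀ i, (i = 0 ∨ ∃ r ≤ t0, (run δ r).2.2 = i - ε) → (run δ' (t0 + 2)).2.1 i ≠ 0 := by
      intro i hi
      rw [D]
      simp only [Function.update_apply]
      by_cases hip : i = (run δ t0).2.2 + ε
      · simp only [hip, if_true]
        exact last_ne
      · have : (∃ r' < t0, (run δ r').2.2 = i - ε) ∨ i = 0 := by
          rcases hi with hi | ⟨r, hr, hi⟩
          · exact Or.inr hi
          · left
            refine ⟨r, ?_, hi⟩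
            rcases Nat.lt_or_ge r t0 with h | h
            · exact h
            · exfalso
              have : r = t0 := by omega
              rw [this] at hi
              apply hip
              rw [hi]
              ring
        simp only [hip, if_false, E, this, if_true]
        exact enc_ne _
    rw [← Set.ncard_image_of_injective _ (add_left_injective ε)]
    apply Set.ncard_lt_ncard _ hfin
    rw [Set.ssubset_iff_of_subset]
    · rcases hc with ⟨r, hr, h5⟩ | h5
      · refine ⟨(run δ r).2.2 + ε, hB _ (Or.inr ⟨r, hr, by ring⟩), ?_⟩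
        rintro ⟨j, hj, hj2⟩
        have : j = (run δ r).2.2 := by simpa using hj2
        rw [this] at hj
        exact hj h5
      · refine ⟨0, hB _ (Or.inl rfl), ?_⟩
        rintro ⟨j, hj, hj2⟩
        have hj3 : j = -ε := by
          have : j + ε = 0 := hj2
          linarith
        obtain ⟨r, hr, h6⟩ := visited δ (t0 + 1) j hj
        exact h5 r (by omega) (by rw [h6, hj3])
    · rintro _ ⟨j, hj, rfl⟩
      obtain ⟨r, hr, h6⟩ := visited δ (t0 + 1) j hj
      apply hB
      right
      refine ⟨r, by omega, ?_⟩
      rw [h6]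
      simp

end Pool.Agent.N469.HB
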