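import Pool.Agent.N469.HB.Explicit
import Pool.Agent.N469.HB.Pre
import Pool.Agent.N469.HB.Edge
import Pool.Agent.N469.HB.Ins

set_option autoImplicit false

namespace Pool.Agent.N469.HB

open Finset

variable {n m : ℕ}

lemma short (δ : Tab n m) (t0 : ℕ) (hT : HaltsAt δ (t0 + 1))
    (hall : ∀ s, ∃ r ≤ t0, (run δ r).1 = some s) (hU : (used δ t0).card ≤ n + 1) :
    t0 + 1 ≤ n + 2 := by
  classical
  obtain ⟨q, hq⟩ := Option.ne_none_iff_exists'.1 (hT.2 t0 (by omega))
  set S := (used δ t0).image Prod.fst with hS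
  have hmem : ∀ r < t0, ∀ s, (run δ r).1 = some s → s ∈ S := by
    intro r hr s hs
    rw [hS, mem_image]
    exact ⟨_, mem_used δ hr hs, rfl⟩
  have hSc : S.card ≤ (used δ t0).card := card_image_le
  have hqS : q ∉ S := by
    intro hqS
    have : S = univ := by
      rw [eq_univ_iff_forall]
      intro s
      obtain ⟨r, hr, hs⟩ := hall s
      rcases Nat.lt_or_ge r t0 with h | h
      · exact hmem r h s hs
      · have : r = t0 := by omega
        rw [this, hq] at hs
        rw [← Option.some.inj hs]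
        exact hqS
    rw [this, card_univ, Fintype.card_fin] at hSc
    omega
  have hS2 : n + 1 ≤ S.card := by
    have h1 : (univ.erase q : Finset (Fin (n + 2))) ⊆ S := by
      intro s hs
      obtain ⟨r, hr, h2⟩ := hall s
      rcases Nat.lt_or_ge r t0 with h | h
      · exact hmem r h s h2
      · have : r = t0 := by omega
        rw [this, hq] at h2
        rw [← Option.some.inj h2] at hs
        simp at hs
    have h2 := card_le_card h1
    rw [card_erase_of_mem (mem_univ _), card_univ, Fintype.card_fin] at h2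
    omega
  have hinj : Set.InjOn Prod.fst ((used δ t0 : Finset _) : Set (Fin (n + 2) × Fin (m + 1))) := by
    apply Finset.injOn_of_card_image_eq
    show S.card = _
    omega
  have key : ∀ d i j, i < j → j + d = t0 → (run δ i).1 = (run δ j).1 → False := by
    intro d
    induction d with
    | zero =>
      intro i j hij hj he
      have : j = t0 := by omega
      rw [this, hq] at he
      exact hqS (hmem i (by omega) q he)
    | succ d ih =>
      intro i j hij hj he
      obtain ⟨s, hs⟩ := Option.ne_none_iff_exists'.1 (hT.2 i (by omega))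
      have hs2 : (run δ j).1 = some s := by rw [← he, hs]
      have h1 := mem_used δ (show i < t0 by omega) hs
      have h2 := mem_used δ (show j < t0 by omega) hs2
      have h3 := hinj h1 h2 rfl
      have h4 : scan δ i = scan δ j := congrArg Prod.snd h3
      refine ih (i + 1) (j + 1) (by omega) (by omega) ?_
      rw [next_state δ hs, next_state δ hs2, h4]
  by_contra hlt
  push Not at hlt
  obtain ⟨i, j, hij, he⟩ := Fintype.exists_ne_map_eq_of_card_lt
    (fun r : Fin (t0 + 1) => ((run δ r.1).1).getD 0) (by simpa using hlt)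
  have he2 : (run δ i.1).1 = (run δ j.1).1 := by
    obtain ⟨s, hs⟩ := Option.ne_none_iff_exists'.1 (hT.2 i.1 i.2)
    obtain ⟨s', hs'⟩ := Option.ne_none_iff_exists'.1 (hT.2 j.1 j.2)
    simp only [hs, hs', Option.getD_some] at he
    rw [hs, hs', he]
  have hne : i.1 ≠ j.1 := fun h => hij (Fin.ext h)
  rcases Nat.lt_or_gt_of_ne hne with h | h
  · exact key (t0 - j.1) i.1 j.1 h (by have := j.2; omega) he2
  · exact key (t0 - i.1) j.1 i.1 h (by have := i.2; omega) he2.symm

lemma one_le_haltCount (δ : Tab n m) {t : ℕ} (hT : HaltsAt δ t) : 1 ≤ haltCount δ := by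
  classical
  obtain ⟨t0, rfl⟩ : ∃ t0, t = t0 + 1 := by
    cases t with
    | zero => exact absurd hT.1 (by simp [run_zero])
    | succ t0 => exact ⟨t0, rfl⟩
  obtain ⟨q, hq⟩ := Option.ne_none_iff_exists'.1 (hT.2 t0 (by omega))
  unfold haltCount
  rw [Nat.one_le_iff_ne_zero, Finset.card_ne_zero]
  refine ⟨(q, scan δ t0), ?_⟩
  rw [mem_filter]
  refine ⟨mem_univ _, ?_⟩
  show (δ q (scan δ t0)).2.2 = none
  rw [← next_state δ hq]
  exact hT.1

/-- **Main theorem.** -/
theorem main (δ : Tab n m) (hk1 : 1 ≤ haltCount δ) (t : ℕ) (hT : HaltsAt δ t)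
    (h : (n + 2) * m < haltCount δ ∨
      (m + 1 ≤ n + 2 ∧ ∃ s, ∀ r < t, (run δ r).1 ≠ some s) ∨
      ((∃ s, ∀ r < t, (run δ r).1 = some s → scan δ r ≠ 0) ∧
        (((run δ (t - 1)).2.1 ((run δ (t - 1)).2.2 + 1) = 0 ∨
          (run δ (t - 1)).2.1 ((run δ (t - 1)).2.2 - 1) = 0) ∨
         (∃ r < t, (run δ t).2.1 (run δ r).2.2 = 0) ∨
         (∃ c : ℤ, (c = 1 ∨ c = -1) ∧
           (∀ s, ¬ (Cross δ (t - 1) 0 c s ∧ Cross δ (t - 1) c 0 s)) ∧
           ∃ s, ¬ Cross δ (t - 1) 0 c s ∧ ¬ Cross δ (t - 1) c 0 s))) ∨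
      (∃ ε : ℤ, (ε = 1 ∨ ε = -1) ∧ (run δ (t - 1)).2.1 ((run δ (t - 1)).2.2 + ε) = 0 ∧
        ∃ s, (δ s 0).1 ≠ 0 ∧ (δ s 0).2.2 ≠ none ∧
          (if (δ s 0).2.1 then (1 : ℤ) else -1) = -ε) ∨
      (∃ ε : ℤ, (ε = 1 ∨ ε = -1) ∧
        (∃ s, ∀ r < t, (run δ r).1 = some s →
          scan δ r ≠ 0 ∧ ¬ Between δ (t - 1) ε (scan δ r)) ∧
        {c | Between δ (t - 1) ε c}.ncard ≤ n + 1)) :
    ∃ δ' : Tab n (m + 1), haltCount δ' = haltCount δ ∧
      ∃ t', t < t' ∧ HaltsAt δ' t' ∧ nonblank δ t < nonblank δ' t' := by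
  classical
  obtain ⟨t0, rfl⟩ : ∃ t0, t = t0 + 1 := by
    cases t with
    | zero => exact absurd hT.1 (by simp [run_zero])
    | succ t0 => exact ⟨t0, rfl⟩
  have G : ∀ ε : ℤ, (ε = 1 ∨ ε = -1) → ∀ s, (∀ r < t0 + 1, (run δ r).1 = some s →
      scan δ r ≠ 0 ∧ ¬ Between δ t0 ε (scan δ r)) → {c | Between δ t0 ε c}.ncard ≤ n + 1 →
      ∃ δ' : Tab n (m + 1), haltCount δ' = haltCount δ ∧
        ∃ t', t0 + 1 < t' ∧ HaltsAt δ' t' ∧ nonblank δ (t0 + 1) < nonblank δ' t' := by
    intro ε hε s hs hc
    have hcard : (univ.filter (fun c => Between δ t0 ε c)).card ≤ n + 1 := by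
      have : {c | Between δ t0 ε c} =
          ((univ.filter (fun c => Between δ t0 ε c) : Finset (Fin (m + 1))) : Set _) := by
        ext c
        simp
      rw [this, Set.ncard_coe_finset] at hc
      exact hc
    rcases hε with hε | hε
    · exact gen δ hk1 t0 hT true ε (by rw [hε]; simp) s (fun r hr => hs r (by omega))
        (univ.filter (fun c => Between δ t0 ε c)) (fun c => by simp) hcard
    · exact gen δ hk1 t0 hT false ε (by rw [hε]; simp) s (fun r hr => hs r (by omega))
        (univ.filter (fun c => Between δ t0 ε c)) (fun c => by simp) hcard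
  have htt : t0 + 1 - 1 = t0 := by omega
  rw [htt] at h
  have hU := used_card δ t0 hT
  rcases h with h | ⟨h1, s, hs⟩ | ⟨⟨s, hs⟩, h3 | h3⟩ |
    ⟨ε, hε, hnb, s, h3, h4, h5⟩ | ⟨ε, hε, ⟨s, hs⟩, hc⟩
  · have hexp : (n + 2) * (m + 1) = (n + 2) * m + (n + 2) := by ring
    have hUc : (used δ t0).card ≤ n + 1 := by omega
    by_cases hun : ∃ s, ∀ r < t0 + 1, (run δ r).1 ≠ some s
    · obtain ⟨s, hs⟩ := hun
      refine G 1 (Or.inl rfl) s (fun r hr hrs => absurd hrs (hs r hr)) ?_
      have hsub : {c | Between δ t0 1 c} ⊆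
          (((used δ t0).image (fun p => (δ p.1 p.2).1) : Finset (Fin (m + 1))) : Set _) := by
        intro c hc
        obtain ⟨j, h4, h5⟩ := hc
        obtain ⟨r, hr, s', h6, h7⟩ := origin δ t0 _ (h4 j le_rfl)
        rw [Finset.mem_coe, mem_image]
        refine ⟨_, mem_used δ hr h6, ?_⟩
        rw [← h5, ← h7]
        rfl
      refine (Set.ncard_le_ncard hsub (Finset.finite_toSet _)).trans ?_
      rw [Set.ncard_coe_finset]
      exact card_image_le.trans hUc
    · push Not at hun
      have hall : ∀ s, ∃ r ≤ t0, (run δ r).1 = some s := by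
        intro s
        obtain ⟨r, hr, hs⟩ := hun s
        exact ⟨r, by omega, hs⟩
      have hsh := short δ t0 hT hall hUc
      have hU1 : 1 ≤ (used δ t0).card := by
        by_contra h0
        have h0' : (used δ t0) = ∅ := by
          rw [← Finset.card_eq_zero]
          omega
        have ht0 : t0 = 0 := by
          by_contra hne
          obtain ⟨s, hs⟩ := Option.ne_none_iff_exists'.1 (hT.2 0 (by omega))
          have := mem_used δ (show 0 < t0 by omega) hs
          rw [h0'] at this
          simp at this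
        obtain ⟨r, hr, hr1⟩ := hall 1
        have : r = 0 := by omega
        rw [this, run_zero] at hr1
        simp at hr1
      obtain ⟨δ', h1, t', h2, h3, h4⟩ := explicit n m (haltCount δ) hk1 (by
        have : (n + 2) * (m + 2) = (n + 2) * m + (n + 2) + (n + 2) := by ring
        omega)
      refine ⟨δ', h1, t', by omega, h3, ?_⟩
      have h5 := (fin_nonblank δ (t0 + 1)).2
      unfold nonblank at h4 ⊢
      omega
  · refine G 1 (Or.inl rfl) s (fun r hr hrs => absurd hrs (hs r hr)) ?_
    have hsub : {c | Between δ t0 1 c} ⊆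
        ((univ.erase 0 : Finset (Fin (m + 1))) : Set _) := by
      intro c hc
      rw [Finset.mem_coe, mem_erase]
      exact ⟨hc.ne_zero, mem_univ _⟩
    refine (Set.ncard_le_ncard hsub (Finset.finite_toSet _)).trans ?_
    rw [Set.ncard_coe_finset, card_erase_of_mem (mem_univ _), card_univ, Fintype.card_fin]
    omega
  · rcases h3 with h3 | h3
    · have hno : ∀ c, ¬ Between δ t0 1 c := by
        rintro c ⟨j, h4, _⟩
        have := h4 0 (by omega)
        apply this
        rw [← h3]
        congr 1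
      refine G 1 (Or.inl rfl) s (fun r hr hrs => ⟨hs r hr hrs, hno _⟩) ?_
      have : {c | Between δ t0 1 c} = ∅ := by
        ext c
        simp [hno c]
      rw [this]
      simp
    · have hno : ∀ c, ¬ Between δ t0 (-1) c := by
        rintro c ⟨j, h4, _⟩
        have := h4 0 (by omega)
        apply this
        rw [← h3]
        congr 1
      refine G (-1) (Or.inr rfl) s (fun r hr hrs => ⟨hs r hr hrs, hno _⟩) ?_
      have : {c | Between δ t0 (-1) c} = ∅ := by
        ext c
        simp [hno c]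
      rw [this]
      simp
  · have hs' : ∀ r ≤ t0, (run δ r).1 = some s → scan δ r ≠ 0 := fun r hr => hs r (by omega)
    rcases h3 with ⟨r, hr, h3⟩ | ⟨c, hc, h3, h4⟩
    · exact pre δ hk1 t0 hT true 1 (by simp) s hs' (Or.inl ⟨r, by omega, h3⟩)
    · rcases hc with rfl | rfl
      · exact ins δ hk1 t0 hT false (-1) (by simp) s hs' (by rw [neg_neg]; exact h3)
          (by rw [neg_neg]; exact h4)
      · exact ins δ hk1 t0 hT true 1 (by simp) s hs' h3 h4
  · obtain ⟨s', hs'⟩ := Option.ne_none_iff_exists'.1 h4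
    rcases hε with hε | hε
    · have hd : (δ s 0).2.1 = false := by
        by_contra hd
        have hd' : (δ s 0).2.1 = true := by simpa using hd
        rw [hd', hε] at h5
        norm_num at h5
      exact edge δ hk1 t0 hT true ε (by rw [hε]; simp) hnb s s' (δ s 0).1
        (Prod.ext rfl (Prod.ext hd hs')) h3
    · have hd : (δ s 0).2.1 = true := by
        by_contra hd
        have hd' : (δ s 0).2.1 = false := by simpa using hd
        rw [hd', hε] at h5
        norm_num at h5
      exact edge δ hk1 t0 hT false ε (by rw [hε]; simp) hnb s s' (δ s 0).1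
        (Prod.ext rfl (Prod.ext hd hs')) h3
  · exact G ε hε s hs hc

end Pool.Agent.N469.HB
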