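import Pool.Agent.N469.HB.Sweep

set_option autoImplicit false

namespace Pool.Agent.N469.HB

open Finset

variable {n m : ℕ}

/-- The symbol scanned at time `r`. -/
def scan (δ : Tab n m) (r : ℕ) : Fin (m + 1) := (run δ r).2.1 (run δ r).2.2

/-- At time `t0` the symbol `c` occurs between the head and the nearest blank cell on the side
`ε` (`1` is right, `-1` is left) of the head. -/
def Between (δ : Tab n m) (t0 : ℕ) (ε : ℤ) (c : Fin (m + 1)) : Prop :=
  ∃ j : ℕ, (∀ j' ≤ j, (run δ t0).2.1 ((run δ t0).2.2 + ε * (1 + j')) ≠ 0) ∧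
    (run δ t0).2.1 ((run δ t0).2.2 + ε * (1 + j)) = c

lemma Between.ne_zero {δ : Tab n m} {t0 : ℕ} {ε : ℤ} {c : Fin (m + 1)} (h : Between δ t0 ε c) :
    c ≠ 0 := by
  obtain ⟨j, h1, h2⟩ := h
  rw [← h2]
  exact h1 j le_rfl

open Classical in
/-- The table entries used before time `t0`. -/
noncomputable def used (δ : Tab n m) (t0 : ℕ) : Finset (Fin (n + 2) × Fin (m + 1)) :=
  univ.filter (fun p => ∃ r < t0, (run δ r).1 = some p.1 ∧ scan δ r = p.2)

lemma next_state (δ : Tab n m) {r : ℕ} {s : Fin (n + 2)} (h : (run δ r).1 = some s) :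
    (run δ (r + 1)).1 = (δ s (scan δ r)).2.2 := by
  rw [run_some δ h]
  rfl

lemma used_nonhalt (δ : Tab n m) (t0 : ℕ) (hT : HaltsAt δ (t0 + 1))
    (p : Fin (n + 2) × Fin (m + 1)) (hp : p ∈ used δ t0) : (δ p.1 p.2).2.2 ≠ none := by
  classical
  unfold used at hp
  rw [mem_filter] at hp
  obtain ⟨_, r, hr, h1, h2⟩ := hp
  rw [← h2, ← next_state δ h1]
  exact hT.2 (r + 1) (by omega)

lemma used_card (δ : Tab n m) (t0 : ℕ) (hT : HaltsAt δ (t0 + 1)) :
    (used δ t0).card + haltCount δ ≤ (n + 2) * (m + 1) := by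
  classical
  unfold haltCount
  rw [← card_union_of_disjoint]
  · refine (card_le_univ _).trans ?_
    simp
  · rw [Finset.disjoint_left]
    intro p hp hp2
    rw [mem_filter] at hp2
    exact used_nonhalt δ t0 hT p hp hp2.2

lemma mem_used (δ : Tab n m) {t0 r : ℕ} (hr : r < t0) {s : Fin (n + 2)}
    (h : (run δ r).1 = some s) : (s, scan δ r) ∈ used δ t0 := by
  classical
  unfold used
  rw [mem_filter]
  exact ⟨mem_univ _, r, hr, h, rfl⟩

theorem gen (δ : Tab n m) (hk1 : 1 ≤ haltCount δ) (t0 : ℕ)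
    (hT : HaltsAt δ (t0 + 1)) (dir : Bool) (ε : ℤ) (hε : ε = if dir then 1 else -1)
    (sx : Fin (n + 2))
    (hsx : ∀ r ≤ t0, (run δ r).1 = some sx → scan δ r ≠ 0 ∧ ¬ Between δ t0 ε (scan δ r))
    (D : Finset (Fin (m + 1))) (hD : ∀ c, c ∈ D ↔ Between δ t0 ε c) (hDc : D.card ≤ n + 1) :
    ∃ δ' : Tab n (m + 1), haltCount δ' = haltCount δ ∧
      ∃ t', t0 + 1 < t' ∧ HaltsAt δ' t' ∧ nonblank δ (t0 + 1) < nonblank δ' t' := by
  classical
  obtain ⟨q, hq⟩ := Option.ne_none_iff_exists'.1 (hT.2 t0 (by omega))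
  have hqa : (δ q (scan δ t0)).2.2 = none := by
    rw [← next_state δ hq]
    exact hT.1
  let gl : Fin (n + 2) → Fin (m + 1) → Fin (m + 2) × Bool × Fin (n + 2) := fun s c =>
    if s = sx ∧ Between δ t0 ε c then (c.castSucc, dir, sx)
    else if s = q ∧ c = scan δ t0 then (Fin.last (m + 1), dir, sx)
    else ((δ s c).1.castSucc, (δ s c).2.1, ((δ s c).2.2).getD 0)
  let g : Fin (n + 2) → Fin (m + 2) → Fin (m + 2) × Bool × Fin (n + 2) := fun s =>
    Fin.lastCases (0, true, 0) (fun c => gl s c)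
  have hg : ∀ s (c : Fin (m + 1)), g s c.castSucc = gl s c := by
    intro s c
    simp only [g, Fin.lastCases_castSucc]
  let F : Finset (Fin (n + 2) × Fin (m + 2)) :=
    (used δ t0).image (fun p => (p.1, p.2.castSucc)) ∪
      ({(q, (scan δ t0).castSucc)} ∪ D.image (fun c => (sx, c.castSucc)))
  have hz : ∀ c : Fin (m + 1), c.castSucc = (0 : Fin (m + 2)) → c = 0 := by
    intro c hc
    apply Fin.castSucc_injective
    rw [hc]
    rfl
  have he0 : ((sx, 0) : Fin (n + 2) × Fin (m + 2)) ∉ F := by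
    intro h
    simp only [F, mem_union, mem_image, mem_singleton, Prod.mk.injEq] at h
    rcases h with ⟨p, hp, h1, h2⟩ | ⟨h1, h2⟩ | ⟨c, hc, _, h2⟩
    · unfold used at hp
      rw [mem_filter] at hp
      obtain ⟨_, r, hr, h3, h4⟩ := hp
      rw [h1] at h3
      exact (hsx r (by omega) h3).1 (by rw [h4]; exact hz _ h2)
    · rw [h1] at hsx
      exact (hsx t0 le_rfl hq).1 (hz _ h2.symm)
    · exact ((hD c).1 hc).ne_zero (hz _ h2)
  have hFc : F.card ≤ (used δ t0).card + (1 + D.card) := by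
    refine (card_union_le _ _).trans (add_le_add card_image_le ?_)
    refine (card_union_le _ _).trans (add_le_add (by simp) card_image_le)
  have hU := used_card δ t0 hT
  obtain ⟨δ', h1, h2, h3, h4⟩ := build n (m + 1) (haltCount δ) F (sx, 0) he0 hk1
    (by
      have : (n + 2) * (m + 1 + 1) = (n + 2) * (m + 1) + (n + 2) := by ring
      rw [this]
      omega) g
  refine ⟨δ', h1, sweep δ t0 hT δ' sx q hq dir ε hε ?_ ?_ ?_ h3 h4⟩
  · intro r hr s hs
    have hmem : (s, (scan δ r).castSucc) ∈ F := by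
      apply mem_union_left
      rw [mem_image]
      refine ⟨(s, scan δ r), ?_, rfl⟩
      unfold used
      rw [mem_filter]
      exact ⟨mem_univ _, r, hr, hs, rfl⟩
    have hnh : (δ s (scan δ r)).2.2 ≠ none := by
      rw [← next_state δ hs]
      exact hT.2 (r + 1) (by omega)
    have hc1 : ¬ (s = sx ∧ Between δ t0 ε (scan δ r)) := by
      rintro ⟨h5, h6⟩
      rw [h5] at hs
      exact (hsx r (by omega) hs).2 h6
    have hc2 : ¬ (s = q ∧ scan δ r = scan δ t0) := by
      rintro ⟨h5, h6⟩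
      rw [h5, h6] at hnh
      exact hnh hqa
    have := h2 s _ hmem
    rw [hg] at this
    simp only [gl, hc1, hc2, if_false] at this
    obtain ⟨s', hs'⟩ := Option.ne_none_iff_exists'.1 hnh
    rw [hs', Option.getD_some] at this
    show δ' s (scan δ r).castSucc = _
    rw [this]
    show _ = ((δ s (scan δ r)).1.castSucc, (δ s (scan δ r)).2.1, (δ s (scan δ r)).2.2)
    rw [hs']
  · have hmem : (q, (scan δ t0).castSucc) ∈ F := by
      apply mem_union_right
      apply mem_union_left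
      exact mem_singleton_self _
    have hc1 : ¬ (q = sx ∧ Between δ t0 ε (scan δ t0)) := by
      rintro ⟨h5, h6⟩
      rw [h5] at hq
      exact (hsx t0 le_rfl hq).2 h6
    have := h2 q _ hmem
    rw [hg] at this
    simp only [gl, hc1, if_false, and_self, if_true] at this
    exact this
  · intro j hj
    have hb : Between δ t0 ε ((run δ t0).2.1 ((run δ t0).2.2 + ε * (1 + j))) := ⟨j, hj, rfl⟩
    have hmem : (sx, ((run δ t0).2.1 ((run δ t0).2.2 + ε * (1 + j))).castSucc) ∈ F := by
      apply mem_union_right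
      apply mem_union_right
      rw [mem_image]
      exact ⟨_, (hD _).2 hb, rfl⟩
    have := h2 sx _ hmem
    rw [hg] at this
    simp only [gl, hb, and_self, if_true] at this
    exact this

end Pool.Agent.N469.HB
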