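import Mathlib

/-!
# Busy beavers: one more symbol (Harland's conjecture), machines with few transitions
-/

set_option autoImplicit false

namespace Pool.Agent.N469.HB

open Finset

/-- Transition tables of machines with `n + 2` states and `m + 1` symbols (`0` is the blank): for a
state and a symbol the table gives the symbol to write, the move (`true` is right, `false` is left)
and the next state (`none` is the halting state). -/
abbrev Tab (n m : ℕ) := Fin (n + 2) → Fin (m + 1) → Fin (m + 1) × Bool × Option (Fin (n + 2))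

/-- Configurations: current state (`none` is the halting state), tape, position of the head. -/
abbrev Conf (n m : ℕ) := Option (Fin (n + 2)) × (ℤ → Fin (m + 1)) × ℤ

/-- One step of the machine (nothing happens in the halting state). -/
def step {n m : ℕ} (δ : Tab n m) (c : Conf n m) : Conf n m :=
  c.1.elim c (fun q => ((δ q (c.2.1 c.2.2)).2.2,
    Function.update c.2.1 c.2.2 (δ q (c.2.1 c.2.2)).1,
    c.2.2 + (if (δ q (c.2.1 c.2.2)).2.1 then (1 : ℤ) else -1)))

/-- The configuration after `t` steps, started in state `0` on the blank tape. -/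
def run {n m : ℕ} (δ : Tab n m) (t : ℕ) : Conf n m := (step δ)^[t] (some 0, fun _ => 0, 0)

/-- The machine halts on the blank tape with activity `t`: it enters the halting state with
step `t`. -/
def HaltsAt {n m : ℕ} (δ : Tab n m) (t : ℕ) : Prop :=
  (run δ t).1 = none ∧ ∀ s < t, (run δ s).1 ≠ none

/-- The number of table entries whose next state is the halting state. -/
def haltCount {n m : ℕ} (δ : Tab n m) : ℕ :=
  (univ.filter (fun p : Fin (n + 2) × Fin (m + 1) => (δ p.1 p.2).2.2 = none)).card

/-- The number of non-blank cells after `t` steps. -/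
noncomputable def nonblank {n m : ℕ} (δ : Tab n m) (t : ℕ) : ℕ :=
  {i : ℤ | (run δ t).2.1 i ≠ 0}.ncard

variable {n m : ℕ}

lemma run_zero (δ : Tab n m) : run δ 0 = (some 0, fun _ => 0, 0) := rfl

lemma run_succ (δ : Tab n m) (t : ℕ) : run δ (t + 1) = step δ (run δ t) := by
  unfold run
  rw [Function.iterate_succ_apply']

lemma step_some (δ : Tab n m) (q : Fin (n + 2)) (τ : ℤ → Fin (m + 1)) (p : ℤ) :
    step δ (some q, τ, p) = ((δ q (τ p)).2.2, Function.update τ p (δ q (τ p)).1,
      p + (if (δ q (τ p)).2.1 then (1 : ℤ) else -1)) := rfl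

lemma step_none (δ : Tab n m) (x : (ℤ → Fin (m + 1)) × ℤ) :
    step δ (none, x) = (none, x) := rfl

lemma run_some (δ : Tab n m) {t : ℕ} {q : Fin (n + 2)} (h : (run δ t).1 = some q) :
    run δ (t + 1) = ((δ q ((run δ t).2.1 (run δ t).2.2)).2.2,
      Function.update (run δ t).2.1 (run δ t).2.2 (δ q ((run δ t).2.1 (run δ t).2.2)).1,
      (run δ t).2.2 + (if (δ q ((run δ t).2.1 (run δ t).2.2)).2.1 then (1 : ℤ) else -1)) := by
  rw [run_succ]
  have : run δ t = (some q, (run δ t).2.1, (run δ t).2.2) := by
    rw [← h]
  rw [this]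
  exact step_some δ q _ _

lemma run_none (δ : Tab n m) {t : ℕ} (h : (run δ t).1 = none) : run δ (t + 1) = run δ t := by
  rw [run_succ]
  have : run δ t = (none, (run δ t).2) := by
    rw [← h]
  rw [this]
  rfl

/-- Far away the tape is blank. -/
lemma far (δ : Tab n m) (t : ℕ) :
    |(run δ t).2.2| ≤ t ∧ ∀ i : ℤ, (t : ℤ) ≤ |i| → (run δ t).2.1 i = 0 := by
  induction t with
  | zero => exact ⟨by simp [run_zero], fun i _ => rfl⟩
  | succ t ih =>
    obtain ⟨h1, h2⟩ := ih
    cases hq : (run δ t).1 with
    | none =>
      rw [run_none δ hq]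
      refine ⟨by push_cast; linarith, fun i hi => h2 i (by push_cast at hi; linarith)⟩
    | some q =>
      rw [run_some δ hq]
      refine ⟨?_, fun i hi => ?_⟩
      · simp only
        push_cast
        have h3 := abs_le.1 h1
        rw [abs_le]
        split_ifs <;> constructor <;> linarith [h3.1, h3.2]
      · simp only
        push_cast at hi
        rw [Function.update_of_ne (by intro h; rw [h] at hi; linarith)]
        exact h2 i (by linarith)

/-- After `t` steps at most `t` cells are non-blank. -/
lemma fin_nonblank (δ : Tab n m) (t : ℕ) :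
    {i : ℤ | (run δ t).2.1 i ≠ 0}.Finite ∧ {i : ℤ | (run δ t).2.1 i ≠ 0}.ncard ≤ t := by
  induction t with
  | zero =>
    have : {i : ℤ | (run δ 0).2.1 i ≠ 0} = ∅ := by
      ext i
      simp [run_zero]
    rw [this]
    simp
  | succ t ih =>
    obtain ⟨h1, h2⟩ := ih
    cases hq : (run δ t).1 with
    | none =>
      rw [run_none δ hq]
      exact ⟨h1, by omega⟩
    | some q =>
      have hsub : {i : ℤ | (run δ (t + 1)).2.1 i ≠ 0} ⊆
          insert (run δ t).2.2 {i : ℤ | (run δ t).2.1 i ≠ 0} := by
        intro i hi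
        rw [Set.mem_setOf_eq, run_some δ hq] at hi
        by_cases hip : i = (run δ t).2.2
        · exact Or.inl hip
        · right
          simp only at hi
          rw [Function.update_of_ne hip] at hi
          exact hi
      have hfin : (insert (run δ t).2.2 {i : ℤ | (run δ t).2.1 i ≠ 0}).Finite := h1.insert _
      refine ⟨hfin.subset hsub, ?_⟩
      calc _ ≤ (insert (run δ t).2.2 {i : ℤ | (run δ t).2.1 i ≠ 0}).ncard :=
            Set.ncard_le_ncard hsub hfin
        _ ≤ {i : ℤ | (run δ t).2.1 i ≠ 0}.ncard + 1 := Set.ncard_insert_le _ _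
        _ ≤ t + 1 := by omega

/-- Every non-blank symbol on the tape was written by an earlier step. -/
lemma origin (δ : Tab n m) (t : ℕ) (i : ℤ) (h : (run δ t).2.1 i ≠ 0) :
    ∃ r < t, ∃ s, (run δ r).1 = some s ∧
      (δ s ((run δ r).2.1 (run δ r).2.2)).1 = (run δ t).2.1 i := by
  induction t with
  | zero => exact absurd rfl h
  | succ t ih =>
    cases hq : (run δ t).1 with
    | none =>
      rw [run_none δ hq] at h ⊢
      obtain ⟨r, hr, s, h1, h2⟩ := ih h
      exact ⟨r, by omega, s, h1, h2⟩
    | some q =>
      by_cases hip : i = (run δ t).2.2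
      · refine ⟨t, by omega, q, hq, ?_⟩
        rw [run_some δ hq, hip]
        simp
      · have he : (run δ (t + 1)).2.1 i = (run δ t).2.1 i := by
          rw [run_some δ hq]
          simp only
          rw [Function.update_of_ne hip]
        rw [he] at h ⊢
        obtain ⟨r, hr, s, h1, h2⟩ := ih h
        exact ⟨r, by omega, s, h1, h2⟩

/-- Tables with prescribed non-halting entries, one prescribed halting entry and a prescribed number
of halting entries. -/
lemma build (n m k : ℕ) (F : Finset (Fin (n + 2) × Fin (m + 1)))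
    (e0 : Fin (n + 2) × Fin (m + 1)) (he0 : e0 ∉ F) (hk1 : 1 ≤ k)
    (hk : k + F.card ≤ (n + 2) * (m + 1))
    (g : Fin (n + 2) → Fin (m + 1) → Fin (m + 1) × Bool × Fin (n + 2)) :
    ∃ δ' : Tab n m, haltCount δ' = k ∧
      (∀ s c, (s, c) ∈ F → δ' s c = ((g s c).1, (g s c).2.1, some (g s c).2.2)) ∧
      (δ' e0.1 e0.2).2.2 = none ∧ (δ' e0.1 e0.2).1 = Fin.last m := by
  classical
  have hsub : ({e0} : Finset _) ⊆ Fᶜ := by
    intro x hx
    rw [mem_singleton] at hx
    rw [hx, mem_compl]
    exact he0
  have hcard : Fᶜ.card = (n + 2) * (m + 1) - F.card := by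
    rw [card_compl]
    simp
  obtain ⟨K, hK1, hK2, hK3⟩ := Finset.exists_subsuperset_card_eq (n := k) hsub
    (by simpa using hk1) (by rw [hcard]; omega)
  refine ⟨fun s c => if (s, c) ∈ K then (Fin.last m, true, none)
    else ((g s c).1, (g s c).2.1, some (g s c).2.2), ?_, ?_, ?_, ?_⟩
  · unfold haltCount
    rw [← hK3]
    congr 1
    ext p
    simp only [mem_filter, mem_univ, true_and]
    by_cases hp : (p.1, p.2) ∈ K
    · simp [hp]
    · simp [hp]
  · intro s c hsc
    have : (s, c) ∉ K := by
      intro h
      exact (mem_compl.1 (hK2 h)) hsc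
    simp only [this, if_false]
  · have : (e0.1, e0.2) ∈ K := hK1 (mem_singleton_self _)
    simp only [this, if_true]
  · have : (e0.1, e0.2) ∈ K := hK1 (mem_singleton_self _)
    simp only [this, if_true]

end Pool.Agent.N469.HB
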