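import Pool.Agent.N469.HB.Main

set_option autoImplicit false

namespace Pool.Agent.N469.HB

open Finset

variable {n m : ℕ}

/-- The tape of the old machine as a tape of the new one. -/
def up (τ : ℤ → Fin (m + 1)) : ℤ → Fin (m + 2) := fun i => (τ i).castSucc

lemma up_update (τ : ℤ → Fin (m + 1)) (p : ℤ) (w : Fin (m + 1)) :
    Function.update (up τ) p w.castSucc = up (Function.update τ p w) := by
  funext i
  by_cases h : i = p
  · subst h
    simp [up]
  · simp [up, Function.update_of_ne h]

lemma up_ne {τ : ℤ → Fin (m + 1)} {i : ℤ} : up τ i ≠ 0 ↔ τ i ≠ 0 := by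
  unfold up
  constructor
  · intro h h2
    apply h
    rw [h2]
    rfl
  · intro h h2
    apply h
    apply Fin.castSucc_injective
    rw [h2]
    rfl

/-- The sweeping machine. -/
theorem sweep (δ : Tab n m) (t0 : ℕ) (hT : HaltsAt δ (t0 + 1)) (δ' : Tab n (m + 1))
    (sx : Fin (n + 2)) (q : Fin (n + 2)) (hq : (run δ t0).1 = some q) (dir : Bool) (ε : ℤ)
    (hε : ε = if dir then 1 else -1)
    (P1 : ∀ r < t0, ∀ s, (run δ r).1 = some s →
      δ' s ((run δ r).2.1 (run δ r).2.2).castSucc =
        ((δ s ((run δ r).2.1 (run δ r).2.2)).1.castSucc, (δ s ((run δ r).2.1 (run δ r).2.2)).2.1,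
          (δ s ((run δ r).2.1 (run δ r).2.2)).2.2))
    (P2 : δ' q ((run δ t0).2.1 (run δ t0).2.2).castSucc = (Fin.last (m + 1), dir, some sx))
    (P3 : ∀ j : ℕ, (∀ j' ≤ j, (run δ t0).2.1 ((run δ t0).2.2 + ε * (1 + j')) ≠ 0) →
      δ' sx ((run δ t0).2.1 ((run δ t0).2.2 + ε * (1 + j))).castSucc =
        (((run δ t0).2.1 ((run δ t0).2.2 + ε * (1 + j))).castSucc, dir, some sx))
    (P4 : (δ' sx 0).2.2 = none) (P5 : (δ' sx 0).1 = Fin.last (m + 1)) :
    ∃ t', t0 + 1 < t' ∧ HaltsAt δ' t' ∧ nonblank δ (t0 + 1) < nonblank δ' t' := by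
  classical
  -- simulation
  have A : ∀ r ≤ t0, run δ' r = ((run δ r).1, up (run δ r).2.1, (run δ r).2.2) := by
    intro r
    induction r with
    | zero =>
      intro _
      rw [run_zero, run_zero]
      rfl
    | succ r ih =>
      intro hr
      have ih' := ih (by omega)
      have hne : (run δ r).1 ≠ none := hT.2 r (by omega)
      obtain ⟨s, hs⟩ := Option.ne_none_iff_exists'.1 hne
      have hs' : (run δ' r).1 = some s := by rw [ih', hs]
      rw [run_some δ' hs', run_some δ hs, ih']
      have hc : up (run δ r).2.1 (run δ r).2.2 = ((run δ r).2.1 (run δ r).2.2).castSucc := rfl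
      simp only [hc, P1 r (by omega) s hs, up_update]
  set τ := (run δ t0).2.1 with hτ
  set p := (run δ t0).2.2 with hp
  have B0 : run δ' t0 = (some q, up τ, p) := by rw [A t0 le_rfl, hq]
  have hε1 : ε * ε = 1 := by rw [hε]; split_ifs <;> norm_num
  have hε0 : ∀ j : ℕ, ε * (1 + (j : ℤ)) ≠ 0 := by
    intro j h
    rcases mul_eq_zero.1 h with h | h
    · rw [h] at hε1
      norm_num at hε1
    · have : (0 : ℤ) ≤ j := Int.natCast_nonneg j
      linarith
  have B : run δ' (t0 + 1) = (some sx, Function.update (up τ) p (Fin.last (m + 1)), p + ε) := by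
    rw [run_succ, B0, step_some]
    have hc : up τ p = (τ p).castSucc := rfl
    simp only [hc, P2, hε]
  set τ' := Function.update (up τ) p (Fin.last (m + 1)) with hτ'
  -- the first blank cell on that side
  have hex : ∃ j : ℕ, τ (p + ε * (1 + j)) = 0 := by
    obtain ⟨h1, h2⟩ := far δ t0
    refine ⟨2 * t0, h2 _ ?_⟩
    have h3 := abs_le.1 h1
    rw [← hp] at h3
    have ht : (0 : ℤ) ≤ t0 := Int.natCast_nonneg t0
    rcases (show ε = 1 ∨ ε = -1 by rw [hε]; split_ifs <;> simp) with h | h
    · rw [h]
      refine le_trans ?_ (le_abs_self _)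
      push_cast
      linarith [h3.1]
    · rw [h]
      refine le_trans ?_ (neg_le_abs _)
      push_cast
      linarith [h3.2]
  set R := Nat.find hex with hR
  have hR0 : τ (p + ε * (1 + R)) = 0 := Nat.find_spec hex
  have hRm : ∀ j < R, τ (p + ε * (1 + j)) ≠ 0 := fun j hj => Nat.find_min hex hj
  have hτ'v : ∀ j : ℕ, τ' (p + ε * (1 + j)) = (τ (p + ε * (1 + j))).castSucc := by
    intro j
    rw [hτ', Function.update_of_ne (by intro h; exact hε0 j (by linarith))]
    rfl
  have C : ∀ j ≤ R, run δ' (t0 + 1 + j) = (some sx, τ', p + ε * (1 + j)) := by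
    intro j
    induction j with
    | zero =>
      intro _
      simpa using B
    | succ j ih =>
      intro hj
      have ih' := ih (by omega)
      rw [show t0 + 1 + (j + 1) = (t0 + 1 + j) + 1 by ring, run_succ, ih', step_some]
      rw [hτ'v j, P3 j (fun j' hj' => hRm j' (by omega))]
      simp only
      rw [← hτ'v j, Function.update_eq_self, ← hε]
      push_cast
      ring_nf
  have D : run δ' (t0 + 1 + R + 1) =
      (none, Function.update τ' (p + ε * (1 + R)) (Fin.last (m + 1)),
      p + ε * (1 + R) + (if (δ' sx 0).2.1 then (1 : ℤ) else -1)) := by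
    have h0 : τ' (p + ε * (1 + R)) = 0 := by
      rw [hτ'v R, hR0]
      rfl
    rw [run_succ, C R le_rfl, step_some, h0, P4, P5]
  refine ⟨t0 + 1 + R + 1, by omega, ⟨by rw [D], ?_⟩, ?_⟩
  · intro s hs
    by_cases hs1 : s ≤ t0
    · rw [A s hs1]
      exact hT.2 s (by omega)
    · obtain ⟨j, hj⟩ : ∃ j, s = t0 + 1 + j := ⟨s - (t0 + 1), by omega⟩
      rw [hj, C j (by omega)]
      simp
  · unfold nonblank
    have hfin := (fin_nonblank δ' (t0 + 1 + R + 1)).1
    apply Set.ncard_lt_ncard _ hfin
    rw [D, run_some δ hq]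
    simp only
    have hxp : p + ε * (1 + (R : ℤ)) ≠ p := by
      intro h
      exact hε0 R (by linarith)
    have hlast : Fin.last (m + 1) ≠ 0 := by
      intro h
      have := congrArg Fin.val h
      simp at this
    rw [Set.ssubset_iff_of_subset]
    · refine ⟨p + ε * (1 + R), ?_, ?_⟩
      · rw [Set.mem_setOf_eq, Function.update_self]
        exact hlast
      · rw [Set.mem_setOf_eq, not_not, Function.update_of_ne hxp]
        exact hR0
    · intro i hi
      rw [Set.mem_setOf_eq] at hi ⊢
      by_cases hix : i = p + ε * (1 + R)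
      · rw [hix, Function.update_self]
        exact hlast
      · rw [Function.update_of_ne hix]
        by_cases hip : i = p
        · rw [hτ', hip, Function.update_self]
          exact hlast
        · rw [hτ', Function.update_of_ne hip]
          rw [Function.update_of_ne hip] at hi
          exact up_ne.2 hi

end Pool.Agent.N469.HB
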